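import Pool.Agent.H239.TR.Residual
import Pool.Agent.H239.TR.Solution

/-!
# A twisted recurrence along an integer orbit: the answer depends on the pair

The answer to the question is yes for a dense set of pairs `(α, β)` of distinct irrationals and
no for a residual set of pairs.
-/

namespace Pool.Agent.Results.MP_0ef687_an.DenseAndResidual

open Filter Topology Pool.Agent.H239.TR

/-- `lim_{|N| → ∞} f(x₀ + N) = 0` -/
def Decays (x0 : ℝ) (f : ℝ → ℂ) : Prop := Tendsto (fun N : ℤ => f (x0 + N)) cofinite (𝓝 0)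

/-- the affirmative answer for the pair `(α, β)`: some orbit carries a solution that decays and is
nonzero at infinitely many points of the orbit -/
def Yes (α β : ℝ) : Prop :=
  ∃ x0 ∈ Set.Icc (0 : ℝ) 1, ∃ f : ℝ → ℂ, Holds α β x0 f ∧
    {N : ℤ | f (x0 + N) ≠ 0}.Infinite ∧ Decays x0 f

/-- (i) Every nonempty open set of pairs contains a pair of distinct irrationals for which some
orbit carries a decaying solution with no zero on the orbit; in particular the answer is yes for a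
dense set of pairs.  (ii) For a residual (comeagre) set of pairs, which are pairs of distinct
irrationals, every decaying solution along every orbit vanishes identically on the orbit; in
particular the answer is no for a residual set of pairs. -/
theorem result :
    (∀ U : Set (ℝ × ℝ), IsOpen U → U.Nonempty →
      ∃ α β : ℝ, (α, β) ∈ U ∧ Irrational α ∧ Irrational β ∧ α ≠ β ∧
        ∃ x0 ∈ Set.Icc (0 : ℝ) 1, ∃ f : ℝ → ℂ,
          Holds α β x0 f ∧ (∀ N : ℤ, f (x0 + N) ≠ 0) ∧ Decays x0 f) ∧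
    Dense {p : ℝ × ℝ | Irrational p.1 ∧ Irrational p.2 ∧ p.1 ≠ p.2 ∧ Yes p.1 p.2} ∧
    {p : ℝ × ℝ | Irrational p.1 ∧ Irrational p.2 ∧ p.1 ≠ p.2 ∧
      ∀ (x0 : ℝ) (f : ℝ → ℂ), Holds p.1 p.2 x0 f → Decays x0 f →
        ∀ N : ℤ, f (x0 + N) = 0} ∈ residual (ℝ × ℝ) ∧
    {p : ℝ × ℝ | Irrational p.1 ∧ Irrational p.2 ∧ p.1 ≠ p.2 ∧ ¬ Yes p.1 p.2} ∈
      residual (ℝ × ℝ) := by
  have h1 : ∀ U : Set (ℝ × ℝ), IsOpen U → U.Nonempty →
      ∃ α β : ℝ, (α, β) ∈ U ∧ Irrational α ∧ Irrational β ∧ α ≠ β ∧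
        ∃ x0 ∈ Set.Icc (0 : ℝ) 1, ∃ f : ℝ → ℂ,
          Holds α β x0 f ∧ (∀ N : ℤ, f (x0 + N) ≠ 0) ∧ Decays x0 f :=
    fun U hU hne => dense_yes hU hne
  have h3 : {p : ℝ × ℝ | Irrational p.1 ∧ Irrational p.2 ∧ p.1 ≠ p.2 ∧
      ∀ (x0 : ℝ) (f : ℝ → ℂ), Holds p.1 p.2 x0 f → Decays x0 f →
        ∀ N : ℤ, f (x0 + N) = 0} ∈ residual (ℝ × ℝ) := residual_no
  refine ⟨h1, ?_, h3, ?_⟩
  · rw [dense_iff_inter_open]
    intro U hU hne
    obtain ⟨α, β, hm, i1, i2, i3, x0, hx0, f, f1, f2, f3⟩ := h1 U hU hne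
    refine ⟨(α, β), hm, i1, i2, i3, x0, hx0, f, f1, ?_, f3⟩
    have : {N : ℤ | f (x0 + N) ≠ 0} = Set.univ := Set.eq_univ_of_forall f2
    rw [this]
    exact Set.infinite_univ
  · apply mem_of_superset h3
    rintro p ⟨i1, i2, i3, i4⟩
    refine ⟨i1, i2, i3, ?_⟩
    rintro ⟨x0, -, f, f1, f2, f3⟩
    obtain ⟨N, hN⟩ := f2.nonempty
    exact hN (i4 x0 f f1 f3 N)

end Pool.Agent.Results.MP_0ef687_an.DenseAndResidual
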